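import Mathlib
import Pool.Agent.TH454.CM.Limit
import Pool.Agent.Y14.CG.Upper
import Pool.Agent.Y14.CG.Upper3
import Pool.Agent.Y14.CG.Lower

set_option autoImplicit false

namespace Pool.Agent.Results.MP_46a7d5_co.ErrorTerms

open Filter Pool.Agent.TH454.CM Pool.Agent.Y14.CG

theorem lower_choice {m : ℕ} (hm : 1 ≤ m) (k : ℕ) (hk : 1 ≤ k) :
    gap m * ((k : ℝ) - m) ≤ choiceNum (SimpleGraph.completeEquipartiteGraph k m) := by
  have hg1 := one_le_gap hm
  by_cases hkm : k ≤ m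
  · have h1 : (k : ℝ) - m ≤ 0 := by
      have : (k : ℝ) ≤ m := by exact_mod_cast hkm
      linarith
    have h2 : gap m * ((k : ℝ) - m) ≤ 0 :=
      mul_nonpos_of_nonneg_of_nonpos (by linarith) h1
    exact h2.trans (Nat.cast_nonneg _)
  · rw [not_le] at hkm
    by_contra hcon
    rw [not_le] at hcon
    have hkm' : (0 : ℝ) < (k : ℝ) - m := by
      have : (m : ℝ) < k := by exact_mod_cast hkm
      linarith
    have h1 : (choiceNum (SimpleGraph.completeEquipartiteGraph k m) : ℝ) / ((k : ℝ) - m)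
        < gap m := by
      rw [div_lt_iff₀ hkm']
      exact hcon
    obtain ⟨g, hgs, hgg⟩ := exists_between h1
    have hg0 : 0 ≤ g := le_trans (by positivity) hgs.le
    have hng : ¬ GapAtMost m g := by
      intro h
      have : gap m ≤ g := csInf_le (gap_set_bddBelow hm) h
      linarith
    obtain ⟨L, hL1, hL2⟩ := lower_explicit hg0 hng k hkm
    have hmem := Nat.sInf_mem (s := {s : ℕ | ∀ L : Fin k × Fin m → Finset ℕ,
      (∀ v, (L v).card = s) → ∃ f : Fin k × Fin m → ℕ, (∀ v, f v ∈ L v) ∧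
      ∀ u v, (SimpleGraph.completeEquipartiteGraph k m).Adj u v → f u ≠ f v})
      ⟨_, choiceNum_le hm k 1 hk le_rfl _ (Nat.le_ceil _)⟩
    change choiceNum (SimpleGraph.completeEquipartiteGraph k m) ∈ _ at hmem
    rw [Set.mem_ofPred_eq, choosable_iff] at hmem
    set s := choiceNum (SimpleGraph.completeEquipartiteGraph k m) with hs
    rw [div_lt_iff₀ hkm'] at hgs
    apply hL2
    have hsub : ∀ i a, ∃ S, S ⊆ L i a ∧ S.card = s := by
      intro i a
      apply Finset.exists_subset_card_eq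
      have := hgs.le.trans (hL1 i a)
      exact_mod_cast this
    choose S hS1 hS2 using hsub
    obtain ⟨f, hf1, hf2⟩ := hmem S hS2
    exact ⟨f, fun i a => hS1 i a (hf1 i a), hf2⟩

theorem upper_choice {m : ℕ} (hm : 1 ≤ m) (k : ℕ) (hk : 2 ≤ k) :
    (choiceNum (SimpleGraph.completeEquipartiteGraph k m) : ℝ) ≤
      gap m * k + 33 * (Real.sqrt (gap m * m * k) * Real.log (k * m) +
        m * (Real.log (k * m)) ^ 2) := by
  have hg1 := one_le_gap hm
  have hgm := gap_le hm
  have hm1 : (1 : ℝ) ≤ m := by exact_mod_cast hm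
  have hm0 : (0 : ℝ) < m := by linarith
  have hk2 : (2 : ℝ) ≤ k := by exact_mod_cast hk
  have hk0 : (0 : ℝ) < k := by linarith
  have hkm2 : (2 : ℝ) ≤ k * m := by nlinarith
  have hc1 : (0.69 : ℝ) < Real.log 2 := by
    have := Real.log_two_gt_d9
    linarith
  have hc2 : Real.log 2 ≤ Real.log (k * m) := Real.log_le_log (by norm_num) hkm2
  set lk := Real.log ((k : ℝ) * m) with hlk
  have hlk1 : 0.69 < lk := by linarith
  have hlk0 : 0 < lk := by linarith
  -- the number of halvings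
  have hlog : (Nat.log 2 (k * m) : ℝ) + 1 ≤ 3 * lk := by
    have hne : k * m ≠ 0 := Nat.mul_ne_zero (by omega) (by omega)
    have h1 : (2 : ℕ) ^ Nat.log 2 (k * m) ≤ k * m := Nat.pow_log_le_self 2 hne
    have h2 : ((2 : ℝ)) ^ Nat.log 2 (k * m) ≤ (k : ℝ) * m := by exact_mod_cast h1
    have h3 : (Nat.log 2 (k * m) : ℝ) * Real.log 2 ≤ lk := by
      rw [hlk, ← Real.log_pow]
      exact Real.log_le_log (by positivity) h2
    have h5 : ((Nat.log 2 (k * m) : ℝ) + 1) * Real.log 2 ≤ (3 * lk) * Real.log 2 := by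
      nlinarith
    exact le_of_mul_le_mul_right h5 (by linarith)
  -- square roots
  set p := Real.sqrt (gap m * k) with hp
  set t := Real.sqrt (m : ℝ) with ht
  have hgk0 : 0 < gap m * k := by positivity
  have hp0 : 0 < p := Real.sqrt_pos.2 hgk0
  have ht0 : 0 < t := Real.sqrt_pos.2 hm0
  have hp2 : p ^ 2 = gap m * k := Real.sq_sqrt hgk0.le
  have ht2 : t ^ 2 = m := Real.sq_sqrt hm0.le
  have hS : Real.sqrt (gap m * m * k) = p * t := by
    rw [hp, ht, ← Real.sqrt_mul hgk0.le]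
    congr 1
    ring
  rw [hS]
  set x := p / (t * lk) with hx
  have htl : 0 < t * lk := mul_pos ht0 hlk0
  have hx0 : 0 < x := div_pos hp0 htl
  set r := ⌈x⌉₊ with hr
  have hxr : x ≤ r := Nat.le_ceil x
  have hrx : (r : ℝ) < x + 1 := Nat.ceil_lt_add_one hx0.le
  have hr1 : 1 ≤ r := Nat.ceil_pos.2 hx0
  have hr1R : (1 : ℝ) ≤ r := by exact_mod_cast hr1
  have hr0 : (0 : ℝ) < r := by linarith
  obtain ⟨c, hc⟩ : ∃ c : ℝ, c = (r : ℝ) * ((Nat.log 2 (k * m) : ℝ) + 1) * m := ⟨_, rfl⟩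
  have hmain := choiceNum_le3 hm k r hr1 c hc
  have hl1 : (1 : ℝ) ≤ (Nat.log 2 (k * m) : ℝ) + 1 := by
    have : (0 : ℝ) ≤ (Nat.log 2 (k * m) : ℝ) := Nat.cast_nonneg _
    linarith
  have hc1' : 1 ≤ c := by
    rw [hc]
    have h1 : 1 ≤ (r : ℝ) * ((Nat.log 2 (k * m) : ℝ) + 1) := by nlinarith
    nlinarith
  have hc0 : 0 < c := by linarith
  have hcle : c ≤ 3 * (r * m * lk) := by
    rw [hc]
    have h1 : (r : ℝ) * m * ((Nat.log 2 (k * m) : ℝ) + 1) ≤ r * m * (3 * lk) :=
      mul_le_mul_of_nonneg_left hlog (by positivity)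
    linarith
  -- the logarithm
  have hΛ : Real.log (c + gap m * k) - Real.log c ≤ 2 * lk := by
    have h1 : c + gap m * k ≤ 2 * ((k : ℝ) * m) * c := by
      have e1 : gap m * k ≤ (k : ℝ) * m := by nlinarith
      have e2 : (k : ℝ) * m ≤ (k : ℝ) * m * c := by nlinarith
      have e3 : c ≤ (k : ℝ) * m * c := by nlinarith
      linarith
    have h2 : Real.log (c + gap m * k) ≤ Real.log (2 * ((k : ℝ) * m) * c) :=
      Real.log_le_log (by linarith) h1
    rw [Real.log_mul (by positivity) hc0.ne', Real.log_mul (by norm_num) (by positivity)] at h2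
    linarith
  have hΛ2 : 2 * c + c * (Real.log (c + gap m * k) - Real.log c) ≤ 15 * (r * m * lk ^ 2) := by
    have e1 : 2 * c + c * (Real.log (c + gap m * k) - Real.log c) ≤ c * (5 * lk) := by
      nlinarith
    have e2 : c * (5 * lk) ≤ (3 * (r * m * lk)) * (5 * lk) :=
      mul_le_mul_of_nonneg_right hcle (by linarith)
    calc _ ≤ _ := e1
      _ ≤ _ := e2
      _ = 15 * (r * m * lk ^ 2) := by ring
  have hrinv : 1 / (r : ℝ) ≤ 1 := by rw [div_le_one hr0]; exact hr1R
  have hrinv0 : 0 < 1 / (r : ℝ) := by positivity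
  have hP1 : (1 / (r : ℝ)) * (gap m * k) ≤ p * t * lk := by
    have e1 : p ≤ r * (t * lk) := by
      rw [hx, div_le_iff₀ htl] at hxr
      exact hxr
    rw [← hp2, one_div, inv_mul_eq_div, div_le_iff₀ hr0]
    nlinarith
  have hP2 : r * m * lk ^ 2 ≤ p * t * lk + m * lk ^ 2 := by
    have e1 : x * (m * lk ^ 2) = p * t * lk := by
      rw [hx, ← ht2]
      field_simp
    have e2 : (r : ℝ) * (m * lk ^ 2) ≤ (x + 1) * (m * lk ^ 2) :=
      mul_le_mul_of_nonneg_right hrx.le (by positivity)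
    nlinarith
  have hP3 : 1 ≤ 3 * (m * lk ^ 2) := by
    have e1 : (1 : ℝ) ≤ 3 * lk ^ 2 := by nlinarith
    have e2 : 1 * (3 * lk ^ 2) ≤ m * (3 * lk ^ 2) :=
      mul_le_mul_of_nonneg_right hm1 (by positivity)
    nlinarith
  have hX0 : 0 ≤ 2 * c + c * (Real.log (c + gap m * k) - Real.log c) := by
    have : 0 ≤ Real.log (c + gap m * k) - Real.log c := by
      rw [sub_nonneg]
      exact Real.log_le_log hc0 (by linarith)
    positivity
  set X := 2 * c + c * (Real.log (c + gap m * k) - Real.log c) with hX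
  have hP4 : (1 + 1 / (r : ℝ)) * X ≤ 2 * (15 * (r * m * lk ^ 2)) := by
    have e1 : (1 + 1 / (r : ℝ)) * X ≤ 2 * X := mul_le_mul_of_nonneg_right (by linarith) hX0
    linarith
  have hptl : 0 ≤ p * t * lk := by positivity
  calc (choiceNum (SimpleGraph.completeEquipartiteGraph k m) : ℝ)
      ≤ (1 + 1 / (r : ℝ)) *
        (2 * c + gap m * k + c * (Real.log (c + gap m * k) - Real.log c)) + 1 := hmain
    _ = gap m * k + (1 / (r : ℝ)) * (gap m * k) + (1 + 1 / (r : ℝ)) * X + 1 := by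
        rw [hX]; ring
    _ ≤ gap m * k + 33 * (p * t * lk + m * lk ^ 2) := by linarith

/-- Error terms in `ch(K_{m*k}) ~ c(m) k`. The limit `c(m)` is the *least* `g` such that every
weighted set cover problem on `m` points has integrality gap at most `g`, and for all `m ≥ 1` and
`k ≥ 2`, `c(m) (k - m) ≤ ch(K_{m*k}) ≤ c(m) k + 33 (√(c(m) m k) log (km) + m log² (km))`. -/
theorem result (m : ℕ) (hm : 1 ≤ m) :
    Tendsto (fun k : ℕ => (choiceNum (SimpleGraph.completeEquipartiteGraph k m) : ℝ) / k)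
      atTop (nhds (gap m)) ∧
    IsLeast {g : ℝ | GapAtMost m g} (gap m) ∧
    ∀ k : ℕ, 2 ≤ k →
      gap m * ((k : ℝ) - m) ≤ choiceNum (SimpleGraph.completeEquipartiteGraph k m) ∧
      (choiceNum (SimpleGraph.completeEquipartiteGraph k m) : ℝ) ≤
        gap m * k + 33 * (Real.sqrt (gap m * m * k) * Real.log (k * m) +
          m * (Real.log (k * m)) ^ 2) :=
  ⟨tendsto_choiceNum m hm, ⟨gapAtMost_gap m, fun _ hg => csInf_le (gap_set_bddBelow hm) hg⟩,
    fun k hk => ⟨lower_choice hm k (by omega), upper_choice hm k hk⟩⟩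

end Pool.Agent.Results.MP_46a7d5_co.ErrorTerms
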