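import Mathlib
import Pool.Agent.TH454.CM.Limit
import Pool.Agent.Y14.CG.Cube
import Pool.Agent.Results.MP_46a7d5_co.ErrorTerms

set_option autoImplicit false

namespace Pool.Agent.Results.MP_46a7d5_co.CubeLower

open Filter Pool.Agent.TH454.CM Pool.Agent.Y14.CG

/-- Explicit lower bounds: if `m ≥ 2 ^ n - 1`, `n ≥ 1`, then `c(m) = lim ch(K_{m*k}) / k` is at
least `n 2 ^ (n - 1) / (2 ^ n - 1)`, and
`ch(K_{m*k}) ≥ n 2 ^ (n - 1) / (2 ^ n - 1) * (k - m)` for every `k ≥ m`. -/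
theorem result (n m : ℕ) (hn : 1 ≤ n) (hm : 2 ^ n - 1 ≤ m) :
    (∃ c : ℝ, Tendsto
        (fun k : ℕ => (choiceNum (SimpleGraph.completeEquipartiteGraph k m) : ℝ) / k)
        atTop (nhds c) ∧ (n : ℝ) * 2 ^ (n - 1) / (2 ^ n - 1) ≤ c) ∧
    ∀ k : ℕ, m ≤ k → (n : ℝ) * 2 ^ (n - 1) / (2 ^ n - 1) * ((k : ℝ) - m) ≤
      choiceNum (SimpleGraph.completeEquipartiteGraph k m) := by
  have hm1 : 1 ≤ m := by
    have : 2 ^ 1 ≤ 2 ^ n := Nat.pow_le_pow_right (by norm_num) hn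
    omega
  have h2n : (2 : ℝ) ≤ 2 ^ n := by
    calc (2 : ℝ) = 2 ^ 1 := by norm_num
      _ ≤ 2 ^ n := pow_le_pow_right₀ (by norm_num) hn
  have hpow : (2 : ℝ) ^ n = 2 * 2 ^ (n - 1) := by
    rw [← pow_succ', Nat.sub_add_cancel hn]
  have heq : (n : ℝ) * 2 ^ n / (2 * (2 ^ n - 1)) = (n : ℝ) * 2 ^ (n - 1) / (2 ^ n - 1) := by
    have h0 : (2 : ℝ) ^ n - 1 ≠ 0 := by
      have : (0 : ℝ) < 2 ^ n - 1 := by linarith
      exact this.ne'
    rw [div_eq_div_iff (mul_ne_zero two_ne_zero h0) h0]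
    have h1 : (n : ℝ) * 2 ^ n * (2 ^ n - 1) = (n : ℝ) * (2 * 2 ^ (n - 1)) * (2 ^ n - 1) := by
      rw [← hpow]
    rw [h1]
    ring
  have hlow : (n : ℝ) * 2 ^ (n - 1) / (2 ^ n - 1) ≤ gap m := by
    rw [← heq]
    exact cube_lower n m hn hm (gapAtMost_gap m)
  refine ⟨⟨gap m, tendsto_choiceNum m hm1, hlow⟩, fun k hk => ?_⟩
  refine le_trans ?_ (ErrorTerms.lower_choice hm1 k (hm1.trans hk))
  apply mul_le_mul_of_nonneg_right hlow
  have : (m : ℝ) ≤ k := by exact_mod_cast hk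
  linarith

end Pool.Agent.Results.MP_46a7d5_co.CubeLower
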