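import Mathlib
import Pool.Agent.TH454.CM.Limit
import Pool.Agent.Y14.CG.Greedy
import Pool.Agent.Results.MP_46a7d5_co.ErrorTerms

set_option autoImplicit false

namespace Pool.Agent.Results.MP_46a7d5_co.HarmonicBound

open Filter Pool.Agent.TH454.CM Pool.Agent.Y14.CG

/-- For every `m ≥ 1` the normalised choice number `c(m) = lim ch(K_{m*k}) / k` satisfies
`c(m) ≤ 1 + 1/2 + ⋯ + 1/m ≤ 1 + log m`; and for all `k ≥ 2`, with `H_m = 1 + 1/2 + ⋯ + 1/m`,
`ch(K_{m*k}) ≤ H_m k + 33 (√(H_m m k) log (km) + m log² (km))`. -/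
theorem result (m : ℕ) (hm : 1 ≤ m) :
    (∃ c : ℝ, Tendsto
        (fun k : ℕ => (choiceNum (SimpleGraph.completeEquipartiteGraph k m) : ℝ) / k)
        atTop (nhds c) ∧
      c ≤ ∑ i ∈ Finset.range m, 1 / ((i : ℝ) + 1) ∧ c ≤ 1 + Real.log m) ∧
    ∀ k : ℕ, 2 ≤ k →
      (choiceNum (SimpleGraph.completeEquipartiteGraph k m) : ℝ) ≤
        (∑ i ∈ Finset.range m, 1 / ((i : ℝ) + 1)) * k +
          33 * (Real.sqrt ((∑ i ∈ Finset.range m, 1 / ((i : ℝ) + 1)) * m * k) *
            Real.log (k * m) + m * (Real.log (k * m)) ^ 2) := by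
  have hH : ((harmonic m : ℚ) : ℝ) = ∑ i ∈ Finset.range m, 1 / ((i : ℝ) + 1) := by
    unfold harmonic
    push_cast
    apply Finset.sum_congr rfl
    intro i _
    rw [one_div]
  have hg := gap_le_harmonic hm
  rw [hH] at hg
  have hg1 := one_le_gap hm
  refine ⟨⟨gap m, tendsto_choiceNum m hm, hg, ?_⟩, ?_⟩
  · refine hg.trans ?_
    rw [← hH]
    exact harmonic_le_one_add_log m
  · intro k hk
    set H := ∑ i ∈ Finset.range m, 1 / ((i : ℝ) + 1) with hHdef
    have hm1 : (1 : ℝ) ≤ m := by exact_mod_cast hm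
    have hk2 : (2 : ℝ) ≤ k := by exact_mod_cast hk
    have hkm : (1 : ℝ) ≤ (k : ℝ) * m := by nlinarith
    have hlog : 0 ≤ Real.log ((k : ℝ) * m) := Real.log_nonneg hkm
    refine (ErrorTerms.upper_choice hm k hk).trans ?_
    have h1 : gap m * k ≤ H * k := mul_le_mul_of_nonneg_right hg (by linarith)
    have h2 : Real.sqrt (gap m * m * k) ≤ Real.sqrt (H * m * k) := by
      apply Real.sqrt_le_sqrt
      have : gap m * m ≤ H * m := mul_le_mul_of_nonneg_right hg (by linarith)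
      exact mul_le_mul_of_nonneg_right this (by linarith)
    have h3 : Real.sqrt (gap m * m * k) * Real.log (k * m) ≤
        Real.sqrt (H * m * k) * Real.log (k * m) := mul_le_mul_of_nonneg_right h2 hlog
    linarith

end Pool.Agent.Results.MP_46a7d5_co.HarmonicBound
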